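import Mathlib
import Pool.Agent.Run7.h965.Core
import Pool.Agent.Run7.h965.Erd

set_option autoImplicit false

namespace Pool.Agent.Results.MP_0e3417_nt.ManyGapsAtLeastThree

/-- For every `c` and every `η > 0` only finitely many solutions with maximal gap at most `c`
have fewer than `x_k ^ (1 - η)` gaps of length at least `3`; here `x_k` is the largest
denominator. -/
theorem result : ∀ c : ℕ, 0 < c → ∀ η : ℝ, 0 < η →
    {S : Finset ℕ | 2 ≤ S.card ∧ (∀ x ∈ S, 0 < x) ∧ (∑ x ∈ S, (1 : ℚ) / (x : ℚ)) = 1 ∧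
      (∀ x ∈ S, ∀ y ∈ S, x < y → ∃ z ∈ S, x < z ∧ z ≤ x + c) ∧
      ({x ∈ S | (∃ y ∈ S, x < y) ∧ ∀ y ∈ S, x < y → x + 3 ≤ y}.card : ℝ) <
        ((S.sup id : ℕ) : ℝ) ^ (1 - η)}.Finite := by
  intro c hc η hη
  refine (Pool.Agent.Run7.h965.many_gaps Pool.Agent.Run7.h965.coreLoc c hc η hη).subset ?_
  rintro S ⟨h1, h2, h3, h4, h5⟩
  refine ⟨h1, h2, h3, h4, ?_⟩
  have h6 : Pool.Agent.Run7.h965.big3 S =
      {x ∈ S | (∃ y ∈ S, x < y) ∧ ∀ y ∈ S, x < y → x + 3 ≤ y} := by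
    ext x
    rw [Pool.Agent.Run7.h965.big3_mem, Finset.mem_filter]
  rw [h6]
  exact h5

end Pool.Agent.Results.MP_0e3417_nt.ManyGapsAtLeastThree
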